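import Pool.Agent.PJC.Stmts

/-!
# PJC row PAI: Hilbert-Schmidt estimate in coordinates
-/

set_option autoImplicit false

namespace Pool.Agent.PJC.H79

open scoped BigOperators

lemma core (n : ℕ) (hn : 1 ≤ n) (X Z : Fin n → Fin n → ℝ) (σ ρ : ℝ)
    (hX1 : 1 - σ ≤ ∑ k, X k k) (hZ1 : 1 - σ ≤ ∑ k, Z k k)
    (hX2 : (n : ℝ) * ∑ k, ∑ l, X k l ^ 2 ≤ 1 + ρ)
    (hZ2 : (n : ℝ) * ∑ k, ∑ l, Z k l ^ 2 ≤ 1 + ρ) :
    1 - (ρ + 4 * σ) ≤ (n : ℝ) * ∑ k, ∑ l, X k l * Z k l := by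
  have hn0 : (0 : ℝ) < n := by exact_mod_cast hn
  have h0 : 0 ≤ ∑ k, ∑ l, (X k l + Z k l - 2 * (if k = l then (1 : ℝ) / n else 0)) ^ 2 :=
    Finset.sum_nonneg fun k _ => Finset.sum_nonneg fun l _ => sq_nonneg _
  have h1 : ∑ k, ∑ l, (X k l + Z k l - 2 * (if k = l then (1 : ℝ) / n else 0)) ^ 2 =
      ∑ k, ∑ l, X k l ^ 2 + ∑ k, ∑ l, Z k l ^ 2 + 2 * ∑ k, ∑ l, X k l * Z k l
        - 4 / n * ∑ k, X k k - 4 / n * ∑ k, Z k k + 4 / n := by
    have h2 : ∀ k l : Fin n, (X k l + Z k l - 2 * (if k = l then (1 : ℝ) / n else 0)) ^ 2 =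
        X k l ^ 2 + Z k l ^ 2 + 2 * (X k l * Z k l)
          - (if k = l then 4 / n * X k k else 0) - (if k = l then 4 / n * Z k k else 0)
          + (if k = l then 4 / (n : ℝ) ^ 2 else 0) := by
      intro k l
      by_cases h : k = l
      · subst h
        rw [if_pos rfl, if_pos rfl, if_pos rfl, if_pos rfl]
        field_simp
        ring
      · rw [if_neg h, if_neg h, if_neg h, if_neg h]
        ring
    have h3 : ∀ k : Fin n, ∑ l, (X k l + Z k l - 2 * (if k = l then (1 : ℝ) / n else 0)) ^ 2 =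
        ∑ l, X k l ^ 2 + ∑ l, Z k l ^ 2 + 2 * ∑ l, X k l * Z k l
          - 4 / n * X k k - 4 / n * Z k k + 4 / (n : ℝ) ^ 2 := by
      intro k
      rw [Finset.sum_congr rfl (fun l _ => h2 k l)]
      rw [Finset.sum_add_distrib, Finset.sum_sub_distrib, Finset.sum_sub_distrib,
        Finset.sum_add_distrib, Finset.sum_add_distrib, ← Finset.mul_sum,
        Finset.sum_ite_eq, Finset.sum_ite_eq, Finset.sum_ite_eq,
        if_pos (Finset.mem_univ _), if_pos (Finset.mem_univ _), if_pos (Finset.mem_univ _)]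
    rw [Finset.sum_congr rfl (fun k _ => h3 k)]
    rw [Finset.sum_add_distrib, Finset.sum_sub_distrib, Finset.sum_sub_distrib,
      Finset.sum_add_distrib, Finset.sum_add_distrib, ← Finset.mul_sum, ← Finset.mul_sum,
      ← Finset.mul_sum, Finset.sum_const, Finset.card_univ, Fintype.card_fin, nsmul_eq_mul]
    field_simp
  rw [h1] at h0
  have h4 : 0 ≤ (n : ℝ) * (∑ k, ∑ l, X k l ^ 2 + ∑ k, ∑ l, Z k l ^ 2
      + 2 * ∑ k, ∑ l, X k l * Z k l - 4 / n * ∑ k, X k k - 4 / n * ∑ k, Z k k + 4 / n) :=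
    mul_nonneg hn0.le h0
  have h5 : (n : ℝ) * (∑ k, ∑ l, X k l ^ 2 + ∑ k, ∑ l, Z k l ^ 2
      + 2 * ∑ k, ∑ l, X k l * Z k l - 4 / n * ∑ k, X k k - 4 / n * ∑ k, Z k k + 4 / n) =
      (n : ℝ) * ∑ k, ∑ l, X k l ^ 2 + (n : ℝ) * ∑ k, ∑ l, Z k l ^ 2
      + 2 * ((n : ℝ) * ∑ k, ∑ l, X k l * Z k l) - 4 * ∑ k, X k k - 4 * ∑ k, Z k k + 4 := by
    field_simp
  rw [h5] at h4
  linarith

/-- Products of Gram sums. -/
lemma gram {Ω Ω' : Type} [Fintype Ω] [Fintype Ω'] (n : ℕ) (W : Ω → ℝ) (W' : Ω' → ℝ)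
    (u : Ω → Fin n → ℝ) (u' : Ω' → Fin n → ℝ) :
    ∑ k, ∑ l, (∑ x, W x * (u x k * u x l)) * (∑ y, W' y * (u' y k * u' y l)) =
      ∑ x, ∑ y, W x * W' y * (∑ k, u x k * u' y k) ^ 2 := by
  have h1 : ∀ x y, W x * W' y * (∑ k, u x k * u' y k) ^ 2 =
      ∑ k, ∑ l, (W x * (u x k * u x l)) * (W' y * (u' y k * u' y l)) := by
    intro x y
    rw [sq, Finset.sum_mul_sum, Finset.mul_sum]
    apply Finset.sum_congr rfl
    intro k _
    rw [Finset.mul_sum]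
    apply Finset.sum_congr rfl
    intro l _
    ring
  have h2 : ∑ x, ∑ y, W x * W' y * (∑ k, u x k * u' y k) ^ 2 =
      ∑ x, ∑ y, ∑ k, ∑ l, (W x * (u x k * u x l)) * (W' y * (u' y k * u' y l)) :=
    Finset.sum_congr rfl fun x _ => Finset.sum_congr rfl fun y _ => h1 x y
  rw [h2]
  have h3 : ∀ k l, (∑ x, W x * (u x k * u x l)) * (∑ y, W' y * (u' y k * u' y l)) =
      ∑ x, ∑ y, (W x * (u x k * u x l)) * (W' y * (u' y k * u' y l)) :=
    fun k l => Finset.sum_mul_sum _ _ _ _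
  rw [Finset.sum_congr rfl fun k _ => Finset.sum_congr rfl fun l _ => h3 k l]
  have h4 : ∀ k, ∑ l, ∑ x, ∑ y, (W x * (u x k * u x l)) * (W' y * (u' y k * u' y l)) =
      ∑ x, ∑ y, ∑ l, (W x * (u x k * u x l)) * (W' y * (u' y k * u' y l)) := by
    intro k
    rw [Finset.sum_comm]
    exact Finset.sum_congr rfl fun x _ => Finset.sum_comm
  rw [Finset.sum_congr rfl fun k _ => h4 k, Finset.sum_comm]
  exact Finset.sum_congr rfl fun x _ => Finset.sum_comm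

lemma inn {n : ℕ} (x y : Eu n) : inner ℝ x y = ∑ k, x k * y k := by
  rw [PiLp.inner_apply]
  apply Finset.sum_congr rfl
  intro k _
  show y k * x k = _
  ring

/-- The estimate for one side. -/
lemma side (n : ℕ) (s : Side n) (R : s.A → Eu n →ₗ[ℝ] Eu n) (hs : s.Wt) :
    ∑ k, ∑ l, (∑ x : s.A × s.I, s.W x *
      ((R x.1 (s.v x.1 x.2)) k * (R x.1 (s.v x.1 x.2)) l)) ^ 2 ≤
    ∑ a, s.μ a * ∑ i, s.w a i * ∑ j, s.w a j *
      inner ℝ (R a (s.v a i)) (R a (s.v a j)) ^ 2 := by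
  have h1 : ∀ k l, (∑ x : s.A × s.I, s.W x *
      ((R x.1 (s.v x.1 x.2)) k * (R x.1 (s.v x.1 x.2)) l)) ^ 2 ≤
      ∑ a, s.μ a * (∑ i, s.w a i * ((R a (s.v a i)) k * (R a (s.v a i)) l)) ^ 2 := by
    intro k l
    have h2 : ∑ x : s.A × s.I, s.W x *
        ((R x.1 (s.v x.1 x.2)) k * (R x.1 (s.v x.1 x.2)) l) =
        ∑ a, s.μ a * ((∑ i, s.w a i * ((R a (s.v a i)) k * (R a (s.v a i)) l)) * 1) := by
      rw [Fintype.sum_prod_type]
      apply Finset.sum_congr rfl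
      intro a _
      rw [mul_one, Finset.mul_sum]
      apply Finset.sum_congr rfl
      intro i _
      unfold Side.W
      ring
    rw [h2]
    have h3 := wcs s.μ (fun a => ∑ i, s.w a i * ((R a (s.v a i)) k * (R a (s.v a i)) l))
      (fun _ => 1) hs.mu0
    have h4 : ∑ a, s.μ a * (1 : ℝ) ^ 2 = 1 := by
      have h5 := hs.mu1
      simpa using h5
    rw [h4, mul_one] at h3
    exact h3
  refine (Finset.sum_le_sum fun k _ => Finset.sum_le_sum fun l _ => h1 k l).trans ?_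
  apply le_of_eq
  have h5 : ∀ k : Fin n, ∑ l, ∑ a, s.μ a *
      (∑ i, s.w a i * ((R a (s.v a i)) k * (R a (s.v a i)) l)) ^ 2 =
      ∑ a, ∑ l, s.μ a *
      (∑ i, s.w a i * ((R a (s.v a i)) k * (R a (s.v a i)) l)) ^ 2 :=
    fun k => Finset.sum_comm
  rw [Finset.sum_congr rfl fun k _ => h5 k, Finset.sum_comm]
  apply Finset.sum_congr rfl
  intro a _
  have h6 : ∑ k, ∑ l, s.μ a *
      (∑ i, s.w a i * ((R a (s.v a i)) k * (R a (s.v a i)) l)) ^ 2 =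
      s.μ a * ∑ k, ∑ l, (∑ i, s.w a i * ((R a (s.v a i)) k * (R a (s.v a i)) l)) *
        (∑ i, s.w a i * ((R a (s.v a i)) k * (R a (s.v a i)) l)) := by
    rw [Finset.mul_sum]
    apply Finset.sum_congr rfl
    intro k _
    rw [Finset.mul_sum]
    apply Finset.sum_congr rfl
    intro l _
    rw [sq]
  rw [h6, gram n (s.w a) (s.w a) (fun i k => (R a (s.v a i)) k) (fun i k => (R a (s.v a i)) k)]
  congr 1
  apply Finset.sum_congr rfl
  intro i _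
  rw [Finset.mul_sum]
  apply Finset.sum_congr rfl
  intro j _
  rw [inn, mul_assoc]

theorem pai : PaiStmt := by
  intro n s r R Q σ ρ hn hs hr _ _ h1 h2 h3 h4
  have hn0 : (0 : ℝ) < n := by exact_mod_cast hn
  have tr : ∀ (s : Side n) (R : s.A → Eu n →ₗ[ℝ] Eu n),
      s.ex (fun a i => ‖R a (s.v a i)‖ ^ 2) = ∑ k, ∑ x : s.A × s.I, s.W x *
        ((R x.1 (s.v x.1 x.2)) k * (R x.1 (s.v x.1 x.2)) k) := by
    intro s R
    rw [s.ex_eq, Finset.sum_comm]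
    apply Finset.sum_congr rfl
    intro x _
    rw [← real_inner_self_eq_norm_sq, inn, Finset.mul_sum]
  have key := core n hn
    (fun k l => ∑ x : s.A × s.I, s.W x * ((R x.1 (s.v x.1 x.2)) k * (R x.1 (s.v x.1 x.2)) l))
    (fun k l => ∑ x : r.A × r.I, r.W x * ((Q x.1 (r.v x.1 x.2)) k * (Q x.1 (r.v x.1 x.2)) l))
    σ ρ (by rw [← tr]; exact h1) (by rw [← tr]; exact h2)
    ((mul_le_mul_of_nonneg_left (side n s R hs) hn0.le).trans h3)
    ((mul_le_mul_of_nonneg_left (side n r Q hr) hn0.le).trans h4)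
  refine key.trans (le_of_eq ?_)
  have e : ex2 s r (fun a i b j => A1 s r R Q a i b j ^ 2) =
      ∑ x : s.A × s.I, ∑ y : r.A × r.I,
        (s.W x * r.W y) * A1 s r R Q x.1 x.2 y.1 y.2 ^ 2 := by
    rw [ex2_eq, Fintype.sum_prod_type]
  rw [gram n s.W r.W (fun x k => (R x.1 (s.v x.1 x.2)) k) (fun x k => (Q x.1 (r.v x.1 x.2)) k),
    e, Finset.mul_sum]
  apply Finset.sum_congr rfl
  intro x _
  rw [Finset.mul_sum]
  apply Finset.sum_congr rfl
  intro y _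
  unfold A1
  rw [mul_pow, Real.sq_sqrt hn0.le, inn]
  ring

end Pool.Agent.PJC.H79
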